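import Mathlib
import Pool.Agent.Lib.MP_fe2d2a_an.Quadrant
import Pool.Agent.Lib.MP_fe2d2a_an.Parts
import Pool.Agent.Lib.MP_fe2d2a_an.Coeffs

/-!
Rotation of the zeros of `∏ (z ^ 2 - 2 cos (a k) z + 1)`: if `P (-x) ≤ P x` for all `x > 0` (in
particular if all coefficients, or just the odd ones, are nonnegative), then for small `t ≥ 0` and
every `x > 0` the even part and the odd part of the rotated polynomial at `x` are nondecreasing in
`t`; consequently so are the coefficients with index at most `2` or at least `2 n - 2`.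
-/

set_option autoImplicit false

open Polynomial Set

namespace Pool.Agent.Results.MP_fe2d2a_an.EvenPart

open Pool.Agent.MP_fe2d2a_an

/-- The zeros in the lower half plane. -/
noncomputable def wz {n : ℕ} (a : Fin n → ℝ) (k : Fin n) : ℂ :=
  Complex.exp (((-a k : ℝ) : ℂ) * Complex.I)

lemma wz_im {n : ℕ} {a : Fin n → ℝ} (ha : ∀ k, 0 < a k ∧ a k < Real.pi) (k : Fin n) :
    (wz a k).im < 0 := by
  unfold wz
  rw [Complex.exp_ofReal_mul_I_im, Real.sin_neg]
  have := Real.sin_pos_of_pos_of_lt_pi (ha k).1 (ha k).2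
  linarith

lemma eval_eq {n : ℕ} (a : Fin n → ℝ) (t x : ℝ) :
    (∏ k : Fin n, ((X : ℝ[X]) ^ 2 - C (2 * Real.cos (t + a k)) * X + 1)).eval x =
      ‖FF (wz a) ((x : ℂ) * Complex.exp (t * Complex.I))‖ ^ 2 := by
  unfold FF
  rw [eval_prod, norm_prod, ← Finset.prod_pow]
  apply Finset.prod_congr rfl
  intro k _
  rw [← Complex.normSq_eq_norm_sq, Complex.normSq_apply]
  have e1 : (wz a k).re = Real.cos (a k) := by
    unfold wz
    rw [Complex.exp_ofReal_mul_I_re, Real.cos_neg]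
  have e2 : (wz a k).im = -Real.sin (a k) := by
    unfold wz
    rw [Complex.exp_ofReal_mul_I_im, Real.sin_neg]
  rw [Complex.sub_re, Complex.sub_im, e1, e2, Complex.re_ofReal_mul, Complex.im_ofReal_mul,
    Complex.exp_ofReal_mul_I_re, Complex.exp_ofReal_mul_I_im, Real.cos_add]
  simp only [eval_add, eval_sub, eval_pow, eval_X, eval_mul, eval_C, eval_one]
  have h1 := Real.sin_sq_add_cos_sq t
  have h2 := Real.sin_sq_add_cos_sq (a k)
  nlinarith [h1, h2]

/-- The odd part is easy: each factor at `x > 0` is nondecreasing. -/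
lemma mono_pos {n : ℕ} {a : Fin n → ℝ} {δ : ℝ} (ha : ∀ k, 0 < a k ∧ a k < Real.pi)
    (hδ : ∀ k, δ ≤ Real.pi - a k) {x : ℝ} {s t : ℝ} (hx : 0 < x)
    (hs : s ∈ Icc (0 : ℝ) δ) (ht : t ∈ Icc (0 : ℝ) δ) (hst : s ≤ t) :
    (∏ k : Fin n, ((X : ℝ[X]) ^ 2 - C (2 * Real.cos (s + a k)) * X + 1)).eval x ≤
      (∏ k : Fin n, ((X : ℝ[X]) ^ 2 - C (2 * Real.cos (t + a k)) * X + 1)).eval x ∧
    (∏ k : Fin n, ((X : ℝ[X]) ^ 2 - C (2 * Real.cos (t + a k)) * X + 1)).eval (-x) ≤
      (∏ k : Fin n, ((X : ℝ[X]) ^ 2 - C (2 * Real.cos (s + a k)) * X + 1)).eval (-x) := by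
  have hc : ∀ k, Real.cos (t + a k) ≤ Real.cos (s + a k) := by
    intro k
    apply Real.cos_le_cos_of_nonneg_of_le_pi
    · linarith [hs.1, (ha k).1]
    · linarith [ht.2, hδ k]
    · linarith
  rw [eval_prod, eval_prod, eval_prod, eval_prod]
  constructor
  · apply Finset.prod_le_prod
    · intro k _
      simp only [eval_add, eval_sub, eval_pow, eval_X, eval_mul, eval_C, eval_one]
      have := Real.cos_le_one (s + a k)
      nlinarith [sq_nonneg (x - 1)]
    · intro k _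
      simp only [eval_add, eval_sub, eval_pow, eval_X, eval_mul, eval_C, eval_one]
      have := hc k
      nlinarith
  · apply Finset.prod_le_prod
    · intro k _
      simp only [eval_add, eval_sub, eval_pow, eval_X, eval_mul, eval_C, eval_one]
      have := Real.neg_one_le_cos (t + a k)
      nlinarith [sq_nonneg (x - 1)]
    · intro k _
      simp only [eval_add, eval_sub, eval_pow, eval_X, eval_mul, eval_C, eval_one]
      have := hc k
      nlinarith

lemma exists_gap {n : ℕ} {a : Fin n → ℝ} (ha : ∀ k, 0 < a k ∧ a k < Real.pi) :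
    ∃ δ > (0 : ℝ), ∀ k, δ ≤ Real.pi - a k := by
  rcases Nat.eq_zero_or_pos n with h | h
  · subst h
    exact ⟨1, one_pos, fun k => k.elim0⟩
  · have : Nonempty (Fin n) := ⟨⟨0, h⟩⟩
    obtain ⟨k, hk⟩ := Finite.exists_min (fun k => Real.pi - a k)
    exact ⟨Real.pi - a k, by linarith [(ha k).2], hk⟩

/-- The polynomial with the zeros `wz a k`. -/
noncomputable def EE {n : ℕ} (a : Fin n → ℝ) : ℂ[X] := ∏ k : Fin n, (X - C (wz a k))

lemma EE_eval {n : ℕ} (a : Fin n → ℝ) (ξ : ℂ) : (EE a).eval ξ = FF (wz a) ξ := by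
  unfold EE FF
  rw [eval_prod]
  simp

lemma good_roots {n : ℕ} {a : Fin n → ℝ} (ha : ∀ k, 0 < a k ∧ a k < Real.pi) (hn : n ≠ 0)
    (hx : ∀ x : ℝ, 0 < x → ‖FF (wz a) (-(x : ℂ))‖ ≤ ‖FF (wz a) x‖) :
    (∀ z ∈ (contract 2 (EE a)).roots, Good z) ∧
      ∀ z ∈ (contract 2 (EE a).divX).roots, Good z := by
  have key : ∀ z : ℂ, ¬ Good z → (contract 2 (EE a)).eval z ≠ 0 ∧
      (contract 2 (EE a).divX).eval z ≠ 0 := by
    intro z hz
    obtain ⟨ξ, h1, h2, h3⟩ := exists_sqrt hz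
    have h4 := norm_GG_lt (wz_im ha) hn hx h2 h3
    rw [← EE_eval, ← EE_eval, parts_eval (EE a) ξ, parts_eval (EE a) (-ξ), neg_sq, h1] at h4
    constructor
    · intro h0
      rw [h0, zero_add, zero_add, neg_mul, norm_neg] at h4
      exact lt_irrefl _ h4
    · intro h0
      rw [h0, mul_zero, mul_zero] at h4
      exact lt_irrefl _ h4
  constructor
  · intro z hz
    by_contra hg
    exact (key z hg).1 (isRoot_of_mem_roots hz)
  · intro z hz
    by_contra hg
    exact (key z hg).2 (isRoot_of_mem_roots hz)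

lemma even_eq {n : ℕ} (a : Fin n → ℝ) (t x : ℝ) :
    (∏ k : Fin n, ((X : ℝ[X]) ^ 2 - C (2 * Real.cos (t + a k)) * X + 1)).eval x +
      (∏ k : Fin n, ((X : ℝ[X]) ^ 2 - C (2 * Real.cos (t + a k)) * X + 1)).eval (-x) =
    2 * (‖(contract 2 (EE a)).eval (((x ^ 2 : ℝ) : ℂ) *
        Complex.exp (((2 * t : ℝ) : ℂ) * Complex.I))‖ ^ 2 +
      x ^ 2 * ‖(contract 2 (EE a).divX).eval (((x ^ 2 : ℝ) : ℂ) *
        Complex.exp (((2 * t : ℝ) : ℂ) * Complex.I))‖ ^ 2) := by
  rw [eval_eq, eval_eq]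
  have h0 : (((-x : ℝ) : ℂ)) * Complex.exp (t * Complex.I) =
      -((x : ℂ) * Complex.exp (t * Complex.I)) := by
    push_cast
    ring
  rw [h0]
  set ξ : ℂ := (x : ℂ) * Complex.exp (t * Complex.I) with hξ
  have h1 : ξ ^ 2 = ((x ^ 2 : ℝ) : ℂ) * Complex.exp (((2 * t : ℝ) : ℂ) * Complex.I) := by
    rw [hξ, mul_pow, ← Complex.exp_nat_mul]
    push_cast
    congr 2
    ring
  have h2 : ‖ξ‖ ^ 2 = x ^ 2 := by
    rw [hξ, norm_mul, Complex.norm_exp_ofReal_mul_I, mul_one, Complex.norm_real,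
      Real.norm_eq_abs, sq_abs]
  rw [← EE_eval, ← EE_eval, parts_eval (EE a) ξ, parts_eval (EE a) (-ξ), neg_sq, h1]
  set A := (contract 2 (EE a)).eval (((x ^ 2 : ℝ) : ℂ) *
        Complex.exp (((2 * t : ℝ) : ℂ) * Complex.I))
  set B := (contract 2 (EE a).divX).eval (((x ^ 2 : ℝ) : ℂ) *
        Complex.exp (((2 * t : ℝ) : ℂ) * Complex.I))
  have h3 := parallelogram_law_with_norm ℝ A (ξ * B)
  rw [norm_mul] at h3
  rw [neg_mul, ← sub_eq_add_neg, ← h2]
  nlinarith [h3]

lemma coeff_zero' {n : ℕ} (a : Fin n → ℝ) (t : ℝ) :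
    (∏ k : Fin n, ((X : ℝ[X]) ^ 2 - C (2 * Real.cos (t + a k)) * X + 1)).coeff 0 = 1 := by
  rw [coeff_zero_eq_eval_zero, eval_prod]
  simp

lemma natDegree_factor (c : ℝ) :
    ((X : ℝ[X]) ^ 2 - C c * X + 1).natDegree = 2 ∧ ((X : ℝ[X]) ^ 2 - C c * X + 1).Monic := by
  have h : ((X : ℝ[X]) ^ 2 - C c * X + 1) = X ^ 2 + (C (-c) * X + C 1) := by
    rw [C_neg, C_1]
    ring
  have hd : (C (-c) * X + C 1 : ℝ[X]).natDegree < 2 :=
    lt_of_le_of_lt natDegree_linear_le (by norm_num)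
  rw [h]
  constructor
  · rw [natDegree_add_eq_left_of_natDegree_lt (by rw [natDegree_X_pow]; exact hd),
      natDegree_X_pow]
  · apply monic_X_pow_add
    exact lt_of_le_of_lt degree_linear_le (by norm_num)

lemma natDegree_P {n : ℕ} (a : Fin n → ℝ) (t : ℝ) :
    (∏ k : Fin n, ((X : ℝ[X]) ^ 2 - C (2 * Real.cos (t + a k)) * X + 1)).natDegree = 2 * n ∧
    (∏ k : Fin n, ((X : ℝ[X]) ^ 2 - C (2 * Real.cos (t + a k)) * X + 1)).Monic := by
  constructor
  · rw [natDegree_prod_of_monic]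
    · rw [Finset.sum_congr rfl (fun k _ => (natDegree_factor (2 * Real.cos (t + a k))).1)]
      simp [mul_comm]
    · intro k _
      exact (natDegree_factor _).2
  · apply monic_prod_of_monic
    intro k _
    exact (natDegree_factor _).2

theorem result :
    ∀ n : ℕ, ∀ a : Fin n → ℝ,
      (∀ k, 0 < a k ∧ a k < Real.pi) →
      (∀ x : ℝ, 0 < x →
        (∏ k : Fin n, ((X : ℝ[X]) ^ 2 - C (2 * Real.cos (a k)) * X + 1)).eval (-x) ≤
          (∏ k : Fin n, ((X : ℝ[X]) ^ 2 - C (2 * Real.cos (a k)) * X + 1)).eval x) →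
      ∃ ε > (0 : ℝ),
        (∀ j : ℕ, (j ≤ 2 ∨ 2 * n ≤ j + 2) →
          MonotoneOn
            (fun t : ℝ => (∏ k : Fin n,
              ((X : ℝ[X]) ^ 2 - C (2 * Real.cos (t + a k)) * X + 1)).coeff j)
            (Set.Icc 0 ε)) ∧
        (∀ x : ℝ, 0 < x →
          MonotoneOn
            (fun t : ℝ => (∏ k : Fin n,
                ((X : ℝ[X]) ^ 2 - C (2 * Real.cos (t + a k)) * X + 1)).eval x +
              (∏ k : Fin n,
                ((X : ℝ[X]) ^ 2 - C (2 * Real.cos (t + a k)) * X + 1)).eval (-x))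
            (Set.Icc 0 ε)) ∧
        (∀ x : ℝ, 0 < x →
          MonotoneOn
            (fun t : ℝ => (∏ k : Fin n,
                ((X : ℝ[X]) ^ 2 - C (2 * Real.cos (t + a k)) * X + 1)).eval x -
              (∏ k : Fin n,
                ((X : ℝ[X]) ^ 2 - C (2 * Real.cos (t + a k)) * X + 1)).eval (-x))
            (Set.Icc 0 ε)) := by
  intro n a ha hx
  rcases Nat.eq_zero_or_pos n with hn | hn
  · subst hn
    refine ⟨1, one_pos, ?_, ?_, ?_⟩
    · intro j _ s _ t _ _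
      simp
    · intro x _ s _ t _ _
      simp
    · intro x _ s _ t _ _
      simp
  have hx' : ∀ x : ℝ, 0 < x → ‖FF (wz a) (-(x : ℂ))‖ ≤ ‖FF (wz a) x‖ := by
    intro x h0
    have h1 := hx x h0
    have e : ∀ y : ℝ, (∏ k : Fin n, ((X : ℝ[X]) ^ 2 - C (2 * Real.cos (a k)) * X + 1)).eval y =
        ‖FF (wz a) (y : ℂ)‖ ^ 2 := by
      intro y
      have := eval_eq a 0 y
      simpa using this
    rw [e, e, Complex.ofReal_neg] at h1
    exact (sq_le_sq₀ (norm_nonneg _) (norm_nonneg _)).1 h1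
  obtain ⟨hg1, hg2⟩ := good_roots ha hn.ne' hx'
  obtain ⟨δ₁, hδ₁, h1⟩ := exists_delta_multiset _ hg1
  obtain ⟨δ₂, hδ₂, h2⟩ := exists_delta_multiset _ hg2
  obtain ⟨δ₃, hδ₃, h3⟩ := exists_gap ha
  set ε : ℝ := min (min (δ₁ / 2) (δ₂ / 2)) δ₃ with hε
  have hε0 : 0 < ε := by positivity
  have hεa : ε ≤ δ₁ / 2 := (min_le_left _ _).trans (min_le_left _ _)
  have hεb : ε ≤ δ₂ / 2 := (min_le_left _ _).trans (min_le_right _ _)
  have hεc : ε ≤ δ₃ := min_le_right _ _
  have hE : ∀ x : ℝ, 0 < x →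
          MonotoneOn
            (fun t : ℝ => (∏ k : Fin n,
                ((X : ℝ[X]) ^ 2 - C (2 * Real.cos (t + a k)) * X + 1)).eval x +
              (∏ k : Fin n,
                ((X : ℝ[X]) ^ 2 - C (2 * Real.cos (t + a k)) * X + 1)).eval (-x))
            (Set.Icc 0 ε) := by
    intro x hx0 s hs t ht hst
    simp only
    rw [even_eq, even_eq]
    have m1 := norm_eval_mono h1 (sq_nonneg x) (s := 2 * s) (t := 2 * t)
      ⟨by linarith [hs.1], by linarith [hs.2]⟩ ⟨by linarith [ht.1], by linarith [ht.2]⟩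
      (by linarith)
    have m2 := norm_eval_mono h2 (sq_nonneg x) (s := 2 * s) (t := 2 * t)
      ⟨by linarith [hs.1], by linarith [hs.2]⟩ ⟨by linarith [ht.1], by linarith [ht.2]⟩
      (by linarith)
    gcongr
  have hO : ∀ x : ℝ, 0 < x →
          MonotoneOn
            (fun t : ℝ => (∏ k : Fin n,
                ((X : ℝ[X]) ^ 2 - C (2 * Real.cos (t + a k)) * X + 1)).eval x -
              (∏ k : Fin n,
                ((X : ℝ[X]) ^ 2 - C (2 * Real.cos (t + a k)) * X + 1)).eval (-x))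
            (Set.Icc 0 ε) := by
    intro x hx0 s hs t ht hst
    simp only
    obtain ⟨q1, q2⟩ := mono_pos ha h3 hx0 ⟨hs.1, hs.2.trans hεc⟩ ⟨ht.1, ht.2.trans hεc⟩ hst
    linarith
  refine ⟨ε, hε0, ?_, hE, hO⟩
  intro j hj s hs t ht hst
  simp only
  set P := (∏ k : Fin n, ((X : ℝ[X]) ^ 2 - C (2 * Real.cos (s + a k)) * X + 1)) with hP
  set Q := (∏ k : Fin n, ((X : ℝ[X]) ^ 2 - C (2 * Real.cos (t + a k)) * X + 1)) with hQ
  have := coeff_signs (D := Q - P) (n := n) ?_ ?_ ?_ ?_ ?_ j hj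
  · rw [coeff_sub] at this
    linarith
  · refine (natDegree_sub_le _ _).trans ?_
    rw [(natDegree_P a t).1, (natDegree_P a s).1, max_self]
  · rw [coeff_sub, coeff_zero', coeff_zero', sub_self]
  · rw [coeff_sub]
    have e1 : Q.coeff (2 * n) = 1 := by
      have := (natDegree_P a t).2
      rw [Monic, leadingCoeff, (natDegree_P a t).1] at this
      exact this
    have e2 : P.coeff (2 * n) = 1 := by
      have := (natDegree_P a s).2
      rw [Monic, leadingCoeff, (natDegree_P a s).1] at this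
      exact this
    rw [e1, e2, sub_self]
  · intro x hx0
    have := hE x hx0 hs ht hst
    simp only at this
    rw [eval_sub, eval_sub]
    linarith
  · intro x hx0
    have := hO x hx0 hs ht hst
    simp only at this
    rw [eval_sub, eval_sub]
    linarith

end Pool.Agent.Results.MP_fe2d2a_an.EvenPart
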