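import Mathlib
import Pool.Agent.Lib.MP_fe2d2a_an.Quadrant

/-!
Rotation of the zeros of `∏ (z ^ 2 - 2 cos (a k) z + 1)` preserves the inequality
`‖P z‖ ≤ P ‖z‖`, one direction `arg z = φ` at a time, and makes it strict.

Put `w k = exp (- i a k)` and `E ξ = ∏ (ξ - w k)`, with all its zeros in the open lower half plane,
and `u = exp (i φ)`. Then, for `z = r exp (i φ)` and `ξ = r exp (i t)`,
`‖P_t z‖ = ‖E (u ξ)‖ ‖E (conj u ξ)‖` and `P_t r = ‖E ξ‖ ^ 2`. The function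
`E (u ξ) E (conj u ξ) / E ξ ^ 2` is holomorphic and bounded in the upper half plane, at most one in
modulus on the positive real axis (hypothesis) and on the positive imaginary axis (there all
`cos (t + a k) ≤ 0`); the Phragmen Lindeloef principle in the first quadrant ends the proof.
-/

set_option autoImplicit false

open Complex Set Filter Topology Asymptotics Bornology

namespace Pool.Agent.Results.MP_fe2d2a_an.Majorant

open Pool.Agent.MP_fe2d2a_an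

/-- The zeros in the lower half plane. -/
noncomputable def wz {n : ℕ} (a : Fin n → ℝ) (k : Fin n) : ℂ :=
  Complex.exp (((-a k : ℝ) : ℂ) * Complex.I)

lemma wz_im {n : ℕ} {a : Fin n → ℝ} (ha : ∀ k, 0 < a k ∧ a k < Real.pi) (k : Fin n) :
    (wz a k).im < 0 := by
  unfold wz
  rw [Complex.exp_ofReal_mul_I_im, Real.sin_neg]
  have := Real.sin_pos_of_pos_of_lt_pi (ha k).1 (ha k).2
  linarith

/-- The comparison function. -/
noncomputable def HH {n : ℕ} (w : Fin n → ℂ) (u v ξ : ℂ) : ℂ :=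
  FF w (u * ξ) * FF w (v * ξ) / FF w ξ ^ 2

lemma HH_eq {n : ℕ} (w : Fin n → ℂ) (u v ξ : ℂ) :
    HH w u v ξ = ∏ k, ((u * ξ - w k) / (ξ - w k) * ((v * ξ - w k) / (ξ - w k))) := by
  unfold HH FF
  rw [Finset.prod_mul_distrib, Finset.prod_div_distrib, Finset.prod_div_distrib, sq,
    mul_div_mul_comm]

lemma factor_le {w ξ u : ℂ} (hu : ‖u‖ = 1) (hw : w.im < 0) (h : 0 ≤ ξ.im) :
    ‖(u * ξ - w) / (ξ - w)‖ ≤ 1 + 2 * ‖w‖ / (-w.im) := by
  have h1 : 0 < ‖ξ - w‖ := by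
    rw [norm_pos_iff, sub_ne_zero]
    rintro rfl
    linarith
  have h2 : -w.im ≤ ‖ξ - w‖ := by
    have := Complex.abs_im_le_norm (ξ - w)
    rw [Complex.sub_im] at this
    have h3 : ξ.im - w.im ≤ |ξ.im - w.im| := le_abs_self _
    linarith
  have h4 : ‖u * ξ - w‖ ≤ ‖ξ - w‖ + 2 * ‖w‖ := by
    have e : u * ξ - w = u * (ξ - w) + (u * w - w) := by ring
    rw [e]
    refine (norm_add_le _ _).trans ?_
    have h5 : ‖u * w - w‖ ≤ ‖w‖ + ‖w‖ := by
      refine (norm_sub_le _ _).trans ?_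
      rw [norm_mul, hu, one_mul]
    rw [norm_mul, hu, one_mul]
    linarith
  have h5 : 0 < -w.im := by linarith
  rw [norm_div, div_le_iff₀ h1]
  have h6 : 2 * ‖w‖ ≤ 2 * ‖w‖ / (-w.im) * ‖ξ - w‖ := by
    rw [div_mul_eq_mul_div, le_div_iff₀ h5]
    have : 0 ≤ ‖w‖ := norm_nonneg _
    nlinarith
  linarith

lemma HH_bounded {n : ℕ} {w : Fin n → ℂ} {u v : ℂ} (hu : ‖u‖ = 1) (hv : ‖v‖ = 1)
    (hw : ∀ k, (w k).im < 0) : ∃ B : ℝ, ∀ ξ : ℂ, 0 ≤ ξ.im → ‖HH w u v ξ‖ ≤ B := by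
  refine ⟨∏ k, ((1 + 2 * ‖w k‖ / (-(w k).im)) * (1 + 2 * ‖w k‖ / (-(w k).im))), ?_⟩
  intro ξ h
  rw [HH_eq, norm_prod]
  refine Finset.prod_le_prod (fun k _ => norm_nonneg _) (fun k _ => ?_)
  rw [norm_mul]
  have h5 : 0 < -(w k).im := by linarith [hw k]
  exact mul_le_mul (factor_le hu (hw k) h) (factor_le hv (hw k) h) (norm_nonneg _) (by positivity)

lemma HH_diff {n : ℕ} {w : Fin n → ℂ} {u v : ℂ} (hw : ∀ k, (w k).im < 0) {ξ : ℂ}
    (h : 0 ≤ ξ.im) : DifferentiableAt ℂ (HH w u v) ξ := by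
  unfold HH
  refine DifferentiableAt.div ?_ ((differentiable_FF w ξ).pow 2) (pow_ne_zero 2 (FF_ne hw h))
  have h1 : ∀ u : ℂ, DifferentiableAt ℂ (fun ξ => FF w (u * ξ)) ξ := fun u =>
    (differentiable_FF w).differentiableAt.comp ξ (differentiableAt_id.const_mul u)
  exact (h1 u).mul (h1 v)

lemma HH_diffContOnCl {n : ℕ} {w : Fin n → ℂ} {u v : ℂ} (hw : ∀ k, (w k).im < 0) :
    DiffContOnCl ℂ (HH w u v) ((Ioi (0 : ℝ)) ×ℂ (Ioi (0 : ℝ))) := by
  apply DifferentiableOn.diffContOnCl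
  rw [closure_quadrant]
  intro ξ hξ
  rw [mem_reProdIm] at hξ
  exact (HH_diff hw hξ.2).differentiableWithinAt

/-- One factor of the polynomial. -/
noncomputable def fac (θ : ℝ) (z : ℂ) : ℂ := z ^ 2 - ((2 * Real.cos θ : ℝ) : ℂ) * z + 1

lemma fac_eq (a t r φ : ℝ) :
    ‖fac (t + a) ((r : ℂ) * exp ((φ : ℂ) * I))‖
      = ‖exp ((φ : ℂ) * I) * ((r : ℂ) * exp ((t : ℂ) * I)) - exp (((-a : ℝ) : ℂ) * I)‖
        * ‖exp (((-φ : ℝ) : ℂ) * I) * ((r : ℂ) * exp ((t : ℂ) * I))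
            - exp (((-a : ℝ) : ℂ) * I)‖ := by
  set z : ℂ := (r : ℂ) * exp ((φ : ℂ) * I) with hz
  have hcos : ((2 * Real.cos (t + a) : ℝ) : ℂ)
      = exp (((t + a : ℝ) : ℂ) * I) + exp (-((t + a : ℝ) : ℂ) * I) := by
    rw [Complex.ofReal_mul, Complex.ofReal_cos, Complex.cos]
    push_cast
    ring
  have hmul : exp (((t + a : ℝ) : ℂ) * I) * exp (-((t + a : ℝ) : ℂ) * I) = 1 := by
    rw [← Complex.exp_add, neg_mul, add_neg_cancel, Complex.exp_zero]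
  have hfac : fac (t + a) z
      = (z - exp (-((t + a : ℝ) : ℂ) * I)) * (z - exp (((t + a : ℝ) : ℂ) * I)) := by
    unfold fac
    rw [hcos]
    linear_combination -hmul
  have e1 : z - exp (-((t + a : ℝ) : ℂ) * I) = exp (((-t : ℝ) : ℂ) * I)
      * (exp ((φ : ℂ) * I) * ((r : ℂ) * exp ((t : ℂ) * I)) - exp (((-a : ℝ) : ℂ) * I)) := by
    have h1 : exp (-((t + a : ℝ) : ℂ) * I) = exp (((-t : ℝ) : ℂ) * I) * exp (((-a : ℝ) : ℂ) * I) := by
      rw [← Complex.exp_add]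
      congr 1
      push_cast
      ring
    have h2 : exp (((-t : ℝ) : ℂ) * I) * exp ((t : ℂ) * I) = 1 := by
      rw [← Complex.exp_add]
      rw [show ((-t : ℝ) : ℂ) * I + (t : ℂ) * I = 0 by push_cast; ring, Complex.exp_zero]
    rw [h1, hz]
    linear_combination (-(r : ℂ) * exp ((φ : ℂ) * I)) * h2
  have e2 : ‖z - exp (((t + a : ℝ) : ℂ) * I)‖
      = ‖exp (((-φ : ℝ) : ℂ) * I) * ((r : ℂ) * exp ((t : ℂ) * I)) - exp (((-a : ℝ) : ℂ) * I)‖ := by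
    rw [← RCLike.norm_conj (z - exp (((t + a : ℝ) : ℂ) * I))]
    have h3 : (starRingEnd ℂ) (z - exp (((t + a : ℝ) : ℂ) * I))
        = (r : ℂ) * exp (((-φ : ℝ) : ℂ) * I) - exp (-((t + a : ℝ) : ℂ) * I) := by
      have c1 : ∀ x : ℝ, (starRingEnd ℂ) (exp ((x : ℂ) * I)) = exp (-(x : ℂ) * I) := by
        intro x
        rw [← Complex.exp_conj, map_mul, Complex.conj_ofReal, Complex.conj_I, mul_neg, neg_mul]
      rw [hz, map_sub, map_mul, Complex.conj_ofReal, c1, c1]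
      push_cast
      rfl
    have h1 : exp (-((t + a : ℝ) : ℂ) * I) = exp (((-t : ℝ) : ℂ) * I) * exp (((-a : ℝ) : ℂ) * I) := by
      rw [← Complex.exp_add]
      congr 1
      push_cast
      ring
    have h2 : exp (((-t : ℝ) : ℂ) * I) * exp ((t : ℂ) * I) = 1 := by
      rw [← Complex.exp_add]
      rw [show ((-t : ℝ) : ℂ) * I + (t : ℂ) * I = 0 by push_cast; ring, Complex.exp_zero]
    have h4 : (r : ℂ) * exp (((-φ : ℝ) : ℂ) * I) - exp (-((t + a : ℝ) : ℂ) * I)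
        = exp (((-t : ℝ) : ℂ) * I)
          * (exp (((-φ : ℝ) : ℂ) * I) * ((r : ℂ) * exp ((t : ℂ) * I)) - exp (((-a : ℝ) : ℂ) * I)) := by
      rw [h1]
      linear_combination (-(r : ℂ) * exp (((-φ : ℝ) : ℂ) * I)) * h2
    rw [h3, h4, norm_mul, Complex.norm_exp_ofReal_mul_I, one_mul]
  rw [hfac, norm_mul, e1, e2, norm_mul, Complex.norm_exp_ofReal_mul_I, one_mul]

lemma fac_real (θ r : ℝ) : fac θ (r : ℂ) = ((r ^ 2 - 2 * Real.cos θ * r + 1 : ℝ) : ℂ) := by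
  unfold fac
  push_cast
  ring

lemma fac_real_nonneg (θ r : ℝ) : 0 ≤ r ^ 2 - 2 * Real.cos θ * r + 1 := by
  have h1 := Real.sin_sq_add_cos_sq θ
  nlinarith [sq_nonneg (r - Real.cos θ), sq_nonneg (Real.sin θ)]

/-- factor with nonnegative coefficients -/
lemma fac_le_of_cos {θ : ℝ} (h : Real.cos θ ≤ 0) {r : ℝ} (hr : 0 ≤ r) {u : ℂ} (hu : ‖u‖ = 1) :
    ‖fac θ ((r : ℂ) * u)‖ ≤ r ^ 2 - 2 * Real.cos θ * r + 1 := by
  unfold fac
  refine (norm_add_le _ _).trans ?_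
  have h1 := norm_sub_le (((r : ℂ) * u) ^ 2) (((2 * Real.cos θ : ℝ) : ℂ) * ((r : ℂ) * u))
  rw [norm_pow, norm_mul, norm_mul, hu, Complex.norm_real, Complex.norm_real, Real.norm_eq_abs,
    Real.norm_eq_abs, abs_of_nonneg hr, abs_of_nonpos (by linarith : 2 * Real.cos θ ≤ 0)] at h1
  rw [norm_mul, hu, Complex.norm_real, Real.norm_eq_abs, abs_of_nonneg hr] at h1
  rw [norm_one]
  linarith

/-- strict version -/
lemma fac_lt_of_cos {θ : ℝ} (h : Real.cos θ < 0) {r : ℝ} (hr : 0 < r) {φ : ℝ}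
    (hφ : Real.cos φ ≠ 1) :
    ‖fac θ ((r : ℂ) * exp ((φ : ℂ) * I))‖ < r ^ 2 - 2 * Real.cos θ * r + 1 := by
  have hle := fac_le_of_cos h.le hr.le (Complex.norm_exp_ofReal_mul_I φ)
  refine lt_of_le_of_ne hle fun heq => ?_
  -- equality in the triangle inequality forces `exp (i φ) = 1`
  have hc1 : Real.cos φ < 1 := lt_of_le_of_ne (Real.cos_le_one φ) hφ
  have h1 : ‖fac θ ((r : ℂ) * exp ((φ : ℂ) * I))‖
      ≤ r ^ 2 + ‖(1 : ℂ) - ((2 * Real.cos θ : ℝ) : ℂ) * ((r : ℂ) * exp ((φ : ℂ) * I))‖ := by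
    unfold fac
    have e : ((r : ℂ) * exp ((φ : ℂ) * I)) ^ 2
        - ((2 * Real.cos θ : ℝ) : ℂ) * ((r : ℂ) * exp ((φ : ℂ) * I)) + 1
        = ((r : ℂ) * exp ((φ : ℂ) * I)) ^ 2
          + (1 - ((2 * Real.cos θ : ℝ) : ℂ) * ((r : ℂ) * exp ((φ : ℂ) * I))) := by ring
    rw [e]
    refine (norm_add_le _ _).trans ?_
    rw [norm_pow, norm_mul, Complex.norm_exp_ofReal_mul_I, Complex.norm_real, Real.norm_eq_abs,
      abs_of_pos hr, mul_one]
  have h2 : ‖(1 : ℂ) - ((2 * Real.cos θ : ℝ) : ℂ) * ((r : ℂ) * exp ((φ : ℂ) * I))‖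
      < 1 - 2 * Real.cos θ * r := by
    have hpos : 0 < 1 - 2 * Real.cos θ * r := by nlinarith
    rw [← sq_lt_sq₀ (norm_nonneg _) hpos.le, ← Complex.normSq_eq_norm_sq, Complex.normSq_apply]
    have e1 : ((1 : ℂ) - ((2 * Real.cos θ : ℝ) : ℂ) * ((r : ℂ) * exp ((φ : ℂ) * I))).re
        = 1 - 2 * Real.cos θ * (r * Real.cos φ) := by
      rw [Complex.sub_re, Complex.one_re, Complex.re_ofReal_mul, Complex.re_ofReal_mul,
        Complex.exp_ofReal_mul_I_re]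
    have e2 : ((1 : ℂ) - ((2 * Real.cos θ : ℝ) : ℂ) * ((r : ℂ) * exp ((φ : ℂ) * I))).im
        = - (2 * Real.cos θ * (r * Real.sin φ)) := by
      rw [Complex.sub_im, Complex.one_im, Complex.im_ofReal_mul, Complex.im_ofReal_mul,
        Complex.exp_ofReal_mul_I_im]
      ring
    rw [e1, e2]
    have h3 := Real.sin_sq_add_cos_sq φ
    have h4 : 0 < -(Real.cos θ) * r * (1 - Real.cos φ) := by
      have : 0 < -Real.cos θ := by linarith
      have h5 : 0 < 1 - Real.cos φ := by linarith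
      positivity
    have h6 : (1 - 2 * Real.cos θ * (r * Real.cos φ)) * (1 - 2 * Real.cos θ * (r * Real.cos φ))
        + -(2 * Real.cos θ * (r * Real.sin φ)) * -(2 * Real.cos θ * (r * Real.sin φ))
        = 1 - 4 * Real.cos θ * r * Real.cos φ
          + 4 * Real.cos θ ^ 2 * r ^ 2 * (Real.sin φ ^ 2 + Real.cos φ ^ 2) := by ring
    rw [h6, h3]
    nlinarith
  linarith

lemma norm_FF_mul {n : ℕ} (a : Fin n → ℝ) (r t φ : ℝ) :
    ‖FF (wz a) (exp ((φ : ℂ) * I) * ((r : ℂ) * exp ((t : ℂ) * I)))‖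
      * ‖FF (wz a) (exp (((-φ : ℝ) : ℂ) * I) * ((r : ℂ) * exp ((t : ℂ) * I)))‖
      = ∏ k, ‖fac (t + a k) ((r : ℂ) * exp ((φ : ℂ) * I))‖ := by
  unfold FF
  rw [norm_prod, norm_prod, ← Finset.prod_mul_distrib]
  refine Finset.prod_congr rfl fun k _ => ?_
  rw [fac_eq]
  rfl

lemma norm_FF_sq {n : ℕ} (a : Fin n → ℝ) (r t : ℝ) :
    ‖FF (wz a) ((r : ℂ) * exp ((t : ℂ) * I))‖ ^ 2
      = ∏ k, (r ^ 2 - 2 * Real.cos (t + a k) * r + 1) := by
  have h := norm_FF_mul a r t 0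
  simp only [Complex.ofReal_zero, zero_mul, Complex.exp_zero, one_mul, neg_zero, mul_one] at h
  rw [sq, h]
  refine Finset.prod_congr rfl fun k _ => ?_
  rw [fac_real, Complex.norm_real, Real.norm_eq_abs, abs_of_nonneg (fac_real_nonneg _ _)]

/-- The statement `‖P_t (r exp (i φ))‖ ≤ P_t r`. -/
def Maj {n : ℕ} (a : Fin n → ℝ) (t r φ : ℝ) : Prop :=
  ∏ k, ‖fac (t + a k) ((r : ℂ) * exp ((φ : ℂ) * I))‖
    ≤ ∏ k, (r ^ 2 - 2 * Real.cos (t + a k) * r + 1)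

lemma norm_HH {n : ℕ} (a : Fin n → ℝ) (r t φ : ℝ) :
    ‖HH (wz a) (exp ((φ : ℂ) * I)) (exp (((-φ : ℝ) : ℂ) * I)) ((r : ℂ) * exp ((t : ℂ) * I))‖
      = (∏ k, ‖fac (t + a k) ((r : ℂ) * exp ((φ : ℂ) * I))‖)
        / ∏ k, (r ^ 2 - 2 * Real.cos (t + a k) * r + 1) := by
  unfold HH
  rw [norm_div, norm_mul, norm_pow, norm_FF_mul, norm_FF_sq]

lemma prod_pos' {n : ℕ} {a : Fin n → ℝ} (ha : ∀ k, 0 < a k ∧ a k < Real.pi) {r t : ℝ}
    (hr : 0 ≤ r) (ht0 : 0 ≤ t) (ht : t ≤ Real.pi / 2) :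
    0 < ∏ k, (r ^ 2 - 2 * Real.cos (t + a k) * r + 1) := by
  rw [← norm_FF_sq]
  have hne : FF (wz a) ((r : ℂ) * exp ((t : ℂ) * I)) ≠ 0 := by
    refine FF_ne (wz_im ha) ?_
    rw [Complex.im_ofReal_mul, Complex.exp_ofReal_mul_I_im]
    exact mul_nonneg hr (Real.sin_nonneg_of_nonneg_of_le_pi ht0 (by linarith [Real.pi_pos]))
  positivity

lemma maj_iff {n : ℕ} {a : Fin n → ℝ} (ha : ∀ k, 0 < a k ∧ a k < Real.pi) {r t : ℝ}
    (hr : 0 ≤ r) (ht0 : 0 ≤ t) (ht : t ≤ Real.pi / 2) (φ : ℝ) :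
    Maj a t r φ ↔ ‖HH (wz a) (exp ((φ : ℂ) * I)) (exp (((-φ : ℝ) : ℂ) * I))
      ((r : ℂ) * exp ((t : ℂ) * I))‖ ≤ 1 := by
  rw [norm_HH, div_le_one (prod_pos' ha hr ht0 ht)]
  rfl

lemma cos_shift (x : ℝ) (hx : 0 < x ∧ x < Real.pi) : Real.cos (Real.pi / 2 + x) < 0 := by
  rw [add_comm, Real.cos_add_pi_div_two]
  have := Real.sin_pos_of_pos_of_lt_pi hx.1 hx.2
  linarith

lemma maj_half {n : ℕ} {a : Fin n → ℝ} (ha : ∀ k, 0 < a k ∧ a k < Real.pi) {r : ℝ}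
    (hr : 0 ≤ r) (φ : ℝ) : Maj a (Real.pi / 2) r φ := by
  unfold Maj
  refine Finset.prod_le_prod (fun k _ => norm_nonneg _) (fun k _ => ?_)
  exact fac_le_of_cos (cos_shift _ (ha k)).le hr (Complex.norm_exp_ofReal_mul_I φ)

lemma maj_half_lt {n : ℕ} {a : Fin n → ℝ} (hn : 0 < n) (ha : ∀ k, 0 < a k ∧ a k < Real.pi)
    {r : ℝ} (hr : 0 < r) {φ : ℝ} (hφ : Real.cos φ ≠ 1) :
    ∏ k, ‖fac (Real.pi / 2 + a k) ((r : ℂ) * exp ((φ : ℂ) * I))‖
      < ∏ k, (r ^ 2 - 2 * Real.cos (Real.pi / 2 + a k) * r + 1) := by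
  have hne : (Finset.univ : Finset (Fin n)).Nonempty := ⟨⟨0, hn⟩, Finset.mem_univ _⟩
  have hlt : ∀ k, ‖fac (Real.pi / 2 + a k) ((r : ℂ) * exp ((φ : ℂ) * I))‖
      < r ^ 2 - 2 * Real.cos (Real.pi / 2 + a k) * r + 1 :=
    fun k => fac_lt_of_cos (cos_shift _ (ha k)) hr hφ
  by_cases h0 : ∃ k, ‖fac (Real.pi / 2 + a k) ((r : ℂ) * exp ((φ : ℂ) * I))‖ = 0
  · obtain ⟨k, hk⟩ := h0
    rw [Finset.prod_eq_zero (Finset.mem_univ k) hk]
    exact Finset.prod_pos fun i _ => lt_of_le_of_lt (norm_nonneg _) (hlt i)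
  · push Not at h0
    refine Finset.prod_lt_prod_of_nonempty (fun k _ => ?_) (fun k _ => hlt k) hne
    exact lt_of_le_of_ne (norm_nonneg _) (Ne.symm (h0 k))

/-- Main inequality in the closed quadrant. -/
theorem norm_HH_le {n : ℕ} {a : Fin n → ℝ} (ha : ∀ k, 0 < a k ∧ a k < Real.pi) {φ : ℝ}
    (hx : ∀ r : ℝ, 0 < r → Maj a 0 r φ) {ξ : ℂ} (h1 : 0 ≤ ξ.re) (h2 : 0 ≤ ξ.im) :
    ‖HH (wz a) (exp ((φ : ℂ) * I)) (exp (((-φ : ℝ) : ℂ) * I)) ξ‖ ≤ 1 := by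
  obtain ⟨B, hB⟩ := HH_bounded (Complex.norm_exp_ofReal_mul_I φ)
    (Complex.norm_exp_ofReal_mul_I (-φ)) (wz_im ha)
  have hpi : 0 < Real.pi / 2 := by positivity
  refine PhragmenLindelof.quadrant_I (HH_diffContOnCl (wz_im ha)) ?_ ?_ ?_ h1 h2
  · refine ⟨1, by norm_num, 0, ?_⟩
    refine Asymptotics.IsBigO.of_bound B ?_
    have : ∀ᶠ z in (cobounded ℂ ⊓ 𝓟 ((Ioi (0 : ℝ)) ×ℂ (Ioi (0 : ℝ)))),
        z ∈ (Ioi (0 : ℝ)) ×ℂ (Ioi (0 : ℝ)) :=
      Filter.mem_inf_of_right (Filter.mem_principal_self _)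
    filter_upwards [this] with z hz
    rw [mem_reProdIm] at hz
    simpa using hB z (le_of_lt hz.2)
  · intro x hx0
    have h3 : Maj a 0 x φ := by
      rcases eq_or_lt_of_le hx0 with h0 | h0
      · rw [← h0]
        unfold Maj fac
        simp
      · exact hx x h0
    have h4 := (maj_iff ha hx0 le_rfl hpi.le φ).1 h3
    simpa using h4
  · intro x hx0
    have h4 := (maj_iff ha hx0 hpi.le le_rfl φ).1 (maj_half ha hx0 φ)
    have e : exp (((Real.pi / 2 : ℝ) : ℂ) * I) = I := by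
      push_cast
      exact Complex.exp_pi_div_two_mul_I
    rw [e] at h4
    exact h4

lemma HH_I_lt {n : ℕ} {a : Fin n → ℝ} (hn : 0 < n) (ha : ∀ k, 0 < a k ∧ a k < Real.pi) {φ : ℝ}
    (hφ : Real.cos φ ≠ 1) {x : ℝ} (hx0 : 0 < x) :
    ‖HH (wz a) (exp ((φ : ℂ) * I)) (exp (((-φ : ℝ) : ℂ) * I)) ((x : ℂ) * I)‖ < 1 := by
  have hpi : 0 < Real.pi / 2 := by positivity
  have e : exp (((Real.pi / 2 : ℝ) : ℂ) * I) = I := by
    push_cast
    exact Complex.exp_pi_div_two_mul_I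
  have h := norm_HH a x (Real.pi / 2) φ
  rw [e] at h
  rw [h, div_lt_one (prod_pos' ha hx0.le hpi.le le_rfl)]
  exact maj_half_lt hn ha hx0 hφ

/-- Strict inequality in the open quadrant and on the positive imaginary axis. -/
theorem norm_HH_lt {n : ℕ} {a : Fin n → ℝ} (hn : 0 < n) (ha : ∀ k, 0 < a k ∧ a k < Real.pi)
    {φ : ℝ} (hφ : Real.cos φ ≠ 1) (hx : ∀ r : ℝ, 0 < r → Maj a 0 r φ) {ξ : ℂ} (h1 : 0 ≤ ξ.re)
    (h2 : 0 < ξ.im) :
    ‖HH (wz a) (exp ((φ : ℂ) * I)) (exp (((-φ : ℝ) : ℂ) * I)) ξ‖ < 1 := by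
  rcases eq_or_lt_of_le h1 with h0 | h0
  · have e : ξ = (ξ.im : ℂ) * I := by
      apply Complex.ext
      · simp [← h0]
      · simp
    rw [e]
    exact HH_I_lt hn ha hφ h2
  · by_contra hcon
    push Not at hcon
    have h4 := le_antisymm (norm_HH_le ha hx h1 h2.le) hcon
    have hop : IsOpen ((Ioi (0 : ℝ)) ×ℂ (Ioi (0 : ℝ))) := isOpen_Ioi.reProdIm isOpen_Ioi
    have hconv : Convex ℝ ((Ioi (0 : ℝ)) ×ℂ (Ioi (0 : ℝ))) := by
      have e1 : (Ioi (0 : ℝ)) ×ℂ (Ioi (0 : ℝ)) = {z : ℂ | 0 < z.re} ∩ {z : ℂ | 0 < z.im} := rfl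
      rw [e1]
      exact (convex_halfSpace_re_gt 0).inter (convex_halfSpace_im_gt 0)
    have hmem : ξ ∈ (Ioi (0 : ℝ)) ×ℂ (Ioi (0 : ℝ)) := by
      rw [mem_reProdIm]
      exact ⟨h0, h2⟩
    have key := Complex.norm_eqOn_closure_of_isPreconnected_of_isMaxOn hconv.isPreconnected hop
      (HH_diffContOnCl (u := exp ((φ : ℂ) * I)) (v := exp (((-φ : ℝ) : ℂ) * I)) (wz_im ha)) hmem (by
        intro z hz
        rw [mem_reProdIm] at hz
        simp only [Function.comp_apply]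
        rw [Set.mem_ofPred_eq, h4]
        exact norm_HH_le ha hx (le_of_lt hz.1) (le_of_lt hz.2))
    have hI : (((1 : ℝ) : ℂ) * I) ∈ closure ((Ioi (0 : ℝ)) ×ℂ (Ioi (0 : ℝ))) := by
      rw [closure_quadrant, mem_reProdIm]
      simp
    have h5 := key hI
    simp only [Function.comp_apply, Function.const_apply] at h5
    rw [h4] at h5
    have h6 := HH_I_lt hn ha hφ (x := 1) one_pos
    linarith

lemma aeval_P {n : ℕ} (a : Fin n → ℝ) (t : ℝ) (z : ℂ) :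
    ‖Polynomial.aeval z (∏ k : Fin n, ((Polynomial.X : Polynomial ℝ) ^ 2
      - Polynomial.C (2 * Real.cos (t + a k)) * Polynomial.X + 1))‖
      = ∏ k, ‖fac (t + a k) z‖ := by
  rw [map_prod, norm_prod]
  refine Finset.prod_congr rfl fun k _ => ?_
  congr 1
  simp [fac]

lemma eval_P {n : ℕ} (a : Fin n → ℝ) (t r : ℝ) :
    (∏ k : Fin n, ((Polynomial.X : Polynomial ℝ) ^ 2
      - Polynomial.C (2 * Real.cos (t + a k)) * Polynomial.X + 1)).eval r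
      = ∏ k, (r ^ 2 - 2 * Real.cos (t + a k) * r + 1) := by
  rw [Polynomial.eval_prod]
  refine Finset.prod_congr rfl fun k _ => ?_
  simp

/-- Nonnegative coefficients give the inequality in all directions. -/
lemma norm_aeval_le {p : Polynomial ℝ} (hp : ∀ j, 0 ≤ p.coeff j) (z : ℂ) :
    ‖Polynomial.aeval z p‖ ≤ p.eval ‖z‖ := by
  rw [Polynomial.aeval_eq_sum_range, Polynomial.eval_eq_sum_range]
  refine (norm_sum_le _ _).trans (Finset.sum_le_sum fun j _ => ?_)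
  rw [norm_smul, norm_pow, Real.norm_eq_abs, abs_of_nonneg (hp j)]

theorem result :
    ∀ n : ℕ, 0 < n → ∀ a : Fin n → ℝ, (∀ k, 0 < a k ∧ a k < Real.pi) →
      (∀ φ : ℝ, Real.cos φ ≠ 1 →
        (∀ r : ℝ, 0 < r →
          ‖Polynomial.aeval ((r : ℂ) * Complex.exp ((φ : ℂ) * Complex.I))
            (∏ k : Fin n, ((Polynomial.X : Polynomial ℝ) ^ 2
              - Polynomial.C (2 * Real.cos (a k)) * Polynomial.X + 1))‖
          ≤ (∏ k : Fin n, ((Polynomial.X : Polynomial ℝ) ^ 2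
              - Polynomial.C (2 * Real.cos (a k)) * Polynomial.X + 1)).eval r) →
        ∀ t : ℝ, 0 < t → t ≤ Real.pi / 2 → ∀ r : ℝ, 0 < r →
          ‖Polynomial.aeval ((r : ℂ) * Complex.exp ((φ : ℂ) * Complex.I))
            (∏ k : Fin n, ((Polynomial.X : Polynomial ℝ) ^ 2
              - Polynomial.C (2 * Real.cos (t + a k)) * Polynomial.X + 1))‖
          < (∏ k : Fin n, ((Polynomial.X : Polynomial ℝ) ^ 2
              - Polynomial.C (2 * Real.cos (t + a k)) * Polynomial.X + 1)).eval r) ∧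
      ((∀ j, 0 ≤ (∏ k : Fin n, ((Polynomial.X : Polynomial ℝ) ^ 2
              - Polynomial.C (2 * Real.cos (a k)) * Polynomial.X + 1)).coeff j) →
        ∀ t : ℝ, 0 < t → t ≤ Real.pi / 2 → ∀ z : ℂ, z ≠ (‖z‖ : ℂ) →
          ‖Polynomial.aeval z (∏ k : Fin n, ((Polynomial.X : Polynomial ℝ) ^ 2
              - Polynomial.C (2 * Real.cos (t + a k)) * Polynomial.X + 1))‖
          < (∏ k : Fin n, ((Polynomial.X : Polynomial ℝ) ^ 2
              - Polynomial.C (2 * Real.cos (t + a k)) * Polynomial.X + 1)).eval ‖z‖) := by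
  intro n hn a ha
  have key : ∀ φ : ℝ, Real.cos φ ≠ 1 →
        (∀ r : ℝ, 0 < r →
          ‖Polynomial.aeval ((r : ℂ) * Complex.exp ((φ : ℂ) * Complex.I))
            (∏ k : Fin n, ((Polynomial.X : Polynomial ℝ) ^ 2
              - Polynomial.C (2 * Real.cos (a k)) * Polynomial.X + 1))‖
          ≤ (∏ k : Fin n, ((Polynomial.X : Polynomial ℝ) ^ 2
              - Polynomial.C (2 * Real.cos (a k)) * Polynomial.X + 1)).eval r) →
        ∀ t : ℝ, 0 < t → t ≤ Real.pi / 2 → ∀ r : ℝ, 0 < r →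
          ‖Polynomial.aeval ((r : ℂ) * Complex.exp ((φ : ℂ) * Complex.I))
            (∏ k : Fin n, ((Polynomial.X : Polynomial ℝ) ^ 2
              - Polynomial.C (2 * Real.cos (t + a k)) * Polynomial.X + 1))‖
          < (∏ k : Fin n, ((Polynomial.X : Polynomial ℝ) ^ 2
              - Polynomial.C (2 * Real.cos (t + a k)) * Polynomial.X + 1)).eval r := by
    intro φ hφ h0 t ht0 ht r hr
    have hx : ∀ r : ℝ, 0 < r → Maj a 0 r φ := by
      intro r hr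
      have h8 := aeval_P a 0 ((r : ℂ) * Complex.exp ((φ : ℂ) * Complex.I))
      have h9 := eval_P a 0 r
      simp only [zero_add] at h8 h9
      unfold Maj
      simp only [zero_add]
      rw [← h8, ← h9]
      exact h0 r hr
    rw [aeval_P, eval_P]
    have h1 : 0 ≤ ((r : ℂ) * exp ((t : ℂ) * I)).re := by
      rw [Complex.re_ofReal_mul, Complex.exp_ofReal_mul_I_re]
      exact mul_nonneg hr.le (Real.cos_nonneg_of_neg_pi_div_two_le_of_le (by linarith) ht)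
    have h2 : 0 < ((r : ℂ) * exp ((t : ℂ) * I)).im := by
      rw [Complex.im_ofReal_mul, Complex.exp_ofReal_mul_I_im]
      exact mul_pos hr (Real.sin_pos_of_pos_of_lt_pi ht0 (by linarith [Real.pi_pos]))
    have h3 := norm_HH_lt hn ha hφ hx h1 h2
    rw [norm_HH, div_lt_one (prod_pos' ha hr.le ht0.le ht)] at h3
    exact h3
  refine ⟨key, ?_⟩
  intro hc t ht0 ht z hz
  have hz0 : z ≠ 0 := by
    rintro rfl
    exact hz (by simp)
  have hr : 0 < ‖z‖ := norm_pos_iff.2 hz0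
  have hzr : z = (‖z‖ : ℂ) * exp ((z.arg : ℂ) * I) := (Complex.norm_mul_exp_arg_mul_I z).symm
  have hφ : Real.cos z.arg ≠ 1 := by
    intro h
    apply hz
    have hs : Real.sin z.arg = 0 := by
      have := Real.sin_sq_add_cos_sq z.arg
      rw [h] at this
      nlinarith
    have he : exp ((z.arg : ℂ) * I) = 1 := by
      apply Complex.ext
      · rw [Complex.exp_ofReal_mul_I_re, h, Complex.one_re]
      · rw [Complex.exp_ofReal_mul_I_im, hs, Complex.one_im]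
    rw [he, mul_one] at hzr
    exact hzr
  have h5 := key z.arg hφ (fun r hr => by
    have h6 := norm_aeval_le hc ((r : ℂ) * Complex.exp ((z.arg : ℂ) * Complex.I))
    have h7 : ‖(r : ℂ) * Complex.exp ((z.arg : ℂ) * Complex.I)‖ = r := by
      rw [norm_mul, Complex.norm_exp_ofReal_mul_I, mul_one, Complex.norm_real, Real.norm_eq_abs,
        abs_of_pos hr]
    rw [h7] at h6
    exact h6) t ht0 ht ‖z‖ hr
  rw [← hzr] at h5
  exact h5

end Pool.Agent.Results.MP_fe2d2a_an.Majorant
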