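import Mathlib
import Pool.Agent.Lib.MP_fe2d2a_anNE.Near
import Pool.Agent.Lib.MP_fe2d2a_anEC.Three
import Pool.Agent.Lib.MP_fe2d2a_anF.Four
import Pool.Agent.Lib.MP_fe2d2a_anF.Five
import Pool.Agent.Lib.MP_fe2d2a_anF.Six
import Pool.Agent.Lib.MP_fe2d2a_anF.Seven
import Pool.Agent.Lib.MP_fe2d2a_anF.Eight
import Pool.Agent.Lib.MP_fe2d2a_anMB.Moeb
import Pool.Agent.Lib.MP_fe2d2a_anTL.TriBlock
import Pool.Agent.Lib.MP_fe2d2a_anAF.Proj

/-!
The conclusion of Q1 holds for the angles `a k` whenever they can be divided into groups such that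
for each group there are numbers `α ≥ 1` and `0 ≤ β ≤ α - 1` and angles `b k` in `(0, π)` with
`tan (a k / 2) ^ 2 = α * tan (b k / 2) ^ 2 + β` for which the product `Q` of the factors
`z^2 - 2 cos (b k) z + 1` has nonnegative coefficients and either satisfies `Q x ≤ 11 * Q (-x)` for
all `x > 0`, or has at most eight factors, or is `z ^ (2 * N) + 2 c z ^ N + 1` with a natural number
`N` and a real number `c ≥ 0`.
-/

set_option autoImplicit false

open Polynomial

namespace Pool.Agent.Results.MP_fe2d2a_an.NearEvenBlocks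

open Pool.Agent.MP_fe2d2a_anEC Pool.Agent.MP_fe2d2a_anNE Pool.Agent.MP_fe2d2a_anF
open Pool.Agent.MP_fe2d2a_anMB Pool.Agent.MP_fe2d2a_anR Pool.Agent.MP_fe2d2a_anTL
open Pool.Agent.MP_fe2d2a_anAF

theorem result :
    ∀ n : ℕ, ∀ a : Fin n → ℝ,
      (∀ k, 0 < a k ∧ a k < Real.pi) →
      ∀ m : ℕ, ∀ g : Fin n → Fin m,
      ∀ α β : Fin m → ℝ, (∀ i, 1 ≤ α i ∧ 0 ≤ β i ∧ β i ≤ α i - 1) →
      ∀ b : Fin n → ℝ, (∀ k, 0 < b k ∧ b k < Real.pi) →
      (∀ k, Real.tan (a k / 2) ^ 2 = α (g k) * Real.tan (b k / 2) ^ 2 + β (g k)) →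
      (∀ i : Fin m,
        (∀ j : ℕ, 0 ≤ (∏ k : Fin n with g k = i,
          ((X : ℝ[X]) ^ 2 - C (2 * Real.cos (b k)) * X + 1)).coeff j) ∧
        ((∀ x : ℝ, 0 < x → (∏ k : Fin n with g k = i,
          ((X : ℝ[X]) ^ 2 - C (2 * Real.cos (b k)) * X + 1)).eval x ≤
            11 * (∏ k : Fin n with g k = i,
          ((X : ℝ[X]) ^ 2 - C (2 * Real.cos (b k)) * X + 1)).eval (-x)) ∨
        (Finset.univ.filter (fun k : Fin n => g k = i)).card ≤ 8 ∨
        ∃ (N : ℕ) (c : ℝ), 0 ≤ c ∧ (∏ k : Fin n with g k = i,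
          ((X : ℝ[X]) ^ 2 - C (2 * Real.cos (b k)) * X + 1)) =
            X ^ (2 * N) + C (2 * c) * X ^ N + 1)) →
      ∃ ε > (0 : ℝ), ∀ j : ℕ,
        MonotoneOn
          (fun t : ℝ => (∏ k : Fin n,
            ((X : ℝ[X]) ^ 2 - C (2 * Real.cos (t + a k)) * X + 1)).coeff j)
          (Set.Icc 0 ε) := by
  intro n a ha m g α β hαβ b hb0 hb h
  -- the conclusion for a group of angles `b`
  have hB : ∀ i : Fin m, ∃ ε > (0 : ℝ), ∀ j, MonotoneOn (fun t : ℝ =>
        (RP b (Finset.univ.filter (fun k : Fin n => g k = i)) t).coeff j) (Set.Icc 0 ε) := by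
    intro i
    have h0 : RP b (Finset.univ.filter (fun k : Fin n => g k = i)) 0 =
        ∏ k : Fin n with g k = i, ((X : ℝ[X]) ^ 2 - C (2 * Real.cos (b k)) * X + 1) := by
      unfold RP
      simp only [zero_add]
    have hpos : ∀ j, 0 ≤
        (RP b (Finset.univ.filter (fun k : Fin n => g k = i)) 0).coeff j := by
      intro j
      rw [h0]
      exact (h i).1 j
    rcases (h i).2 with h2 | h2 | ⟨N, c, hc, h2⟩
    · apply near_block b _ (fun k _ => hb0 k) hpos
      intro x hx
      rw [h0]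
      exact h2 x hx
    · rcases Nat.lt_or_ge (Finset.univ.filter (fun k : Fin n => g k = i)).card 3 with h3 | h3
      · exact small_block b _ (fun k _ => hb0 k) hpos (by omega)
      · rcases h3.eq_or_lt with h4 | h4
        · exact three_block b _ (fun k _ => hb0 k) hpos h4.symm
        · rcases (show 4 ≤ _ from h4).eq_or_lt with h5 | h5
          · exact four_block b _ (fun k _ => hb0 k) hpos h5.symm
          · rcases (show 5 ≤ _ from h5).eq_or_lt with h6 | h6
            · exact five_block b _ (fun k _ => hb0 k) hpos h6.symm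
            · rcases (show 6 ≤ _ from h6).eq_or_lt with h7 | h7
              · exact six_block b _ (fun k _ => hb0 k) hpos h7.symm
              · rcases (show 7 ≤ _ from h7).eq_or_lt with h8 | h8
                · exact seven_block b _ (fun k _ => hb0 k) hpos h8.symm
                · exact eight_block b _ (fun k _ => hb0 k) hpos (by omega)
    · exact tri_block b _ (fun k _ => hb0 k) N c hc (h0.trans h2)
  -- the conclusion and the nonnegativity for a group of angles `a`
  have hg : ∀ i ∈ (Finset.univ : Finset (Fin m)), ∃ ε > (0 : ℝ),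
      (∀ j, MonotoneOn (fun t : ℝ =>
        (RP a (Finset.univ.filter (fun k : Fin n => g k = i)) t).coeff j) (Set.Icc 0 ε)) ∧
      (∀ j, ∀ t ∈ Set.Icc (0 : ℝ) ε,
        0 ≤ (RP a (Finset.univ.filter (fun k : Fin n => g k = i)) t).coeff j) := by
    intro i _
    have hposb : ∀ j, 0 ≤ (QP (fun k => Real.cos (b k))
        (Finset.univ.filter (fun k : Fin n => g k = i))).coeff j := by
      intro j
      unfold QP
      exact (h i).1 j
    have hboth := proj_block a b (Finset.univ.filter (fun k : Fin n => g k = i))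
      (fun k _ => ha k) (fun k _ => hb0 k) (hαβ i).2.1 (hαβ i).2.2
      (fun k hk => by
        have h1 := hb k
        rw [(Finset.mem_filter.1 hk).2] at h1
        exact h1) hposb (hB i)
    obtain ⟨⟨ε, hε, hm⟩, hposa⟩ := hboth
    have hpos : ∀ j, 0 ≤
        (RP a (Finset.univ.filter (fun k : Fin n => g k = i)) 0).coeff j := by
      intro j
      rw [RP_eq]
      simpa only [zero_add] using hposa j
    refine ⟨ε, hε, hm, ?_⟩
    intro j t ht
    exact (hpos j).trans (hm j (Set.left_mem_Icc.2 hε.le) ht ht.1)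
  obtain ⟨ε, hε, hm, _⟩ := prod_block Finset.univ
    (fun i t => RP a (Finset.univ.filter (fun k : Fin n => g k = i)) t) hg
  refine ⟨ε, hε, fun j => ?_⟩
  have e : ∀ t : ℝ, ∏ i : Fin m, RP a (Finset.univ.filter (fun k : Fin n => g k = i)) t =
      ∏ k : Fin n, ((X : ℝ[X]) ^ 2 - C (2 * Real.cos (t + a k)) * X + 1) := by
    intro t
    unfold RP
    exact Finset.prod_fiberwise Finset.univ g
      (fun k => ((X : ℝ[X]) ^ 2 - C (2 * Real.cos (t + a k)) * X + 1))
  have hj := hm j
  simp only [e] at hj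
  exact hj

end Pool.Agent.Results.MP_fe2d2a_an.NearEvenBlocks
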