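import Mathlib
import Pool.Agent.Lib.MP_fe2d2a_anK.Rot

/-!
Only two pairs of zeros are rotated: the pair of smallest argument `a p` and a second pair `a q ≤ 3 a p`,
all other arguments being at least `(a p + a q) / 2 + T`. Then the coefficients are nondecreasing on `[0, T]`.
-/

set_option autoImplicit false

open Polynomial

namespace Pool.Agent.Results.MP_fe2d2a_an.TwoPairs

theorem result :
    ∀ n : ℕ, ∀ a : Fin n → ℝ,
      (∀ k, 0 < a k ∧ a k < Real.pi) →
      (∀ j : ℕ, 0 ≤ (∏ k : Fin n,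
          ((X : ℝ[X]) ^ 2 - C (2 * Real.cos (a k)) * X + 1)).coeff j) →
      ∀ p q : Fin n, a p < a q → a q ≤ 3 * a p →
      ∀ T : ℝ, a q + T ≤ Real.pi →
      (∀ k, k ≠ p → k ≠ q → (a p + a q) / 2 + T ≤ a k) →
      ∀ j : ℕ,
        MonotoneOn
          (fun t : ℝ => (∏ k : Fin n,
            ((X : ℝ[X]) ^ 2 - C (2 * Real.cos (a k + (if k = p ∨ k = q then t else 0))) * X
              + 1)).coeff j)
          (Set.Icc 0 T) := by
  intro n a ha hP p q hpq h3 T hT hoth j
  exact Pool.Agent.MP_fe2d2a_anK.rotate a ha hP p q hpq h3 T hT hoth j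

end Pool.Agent.Results.MP_fe2d2a_an.TwoPairs
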